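import Mathlib

/-! Tails from moments outside of a set of density zero, for a general family of finite sets. -/

set_option autoImplicit false

namespace Pool.Agent.TH344.GT

open Finset Filter Topology

variable {α : Type} (A : ℕ → Finset α)

/-- the proportion of `S` in the finite set `A H` -/
noncomputable def pr (S : Set α) (H : ℕ) : ℝ :=
  (((A H : Set α) ∩ S).ncard : ℝ) / ((A H).card : ℝ)

/-- the upper density -/
noncomputable def ud (S : Set α) : ℝ := limsup (pr A S) atTop

open scoped Classical in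
/-- all the moments of `f` are bounded outside of one set of density zero -/
def EXC (f : α → ℕ) : Prop := ∃ Z : Set α,
  (∀ ε : ℝ, 0 < ε → ∃ H0 : ℕ, ∀ H, H0 ≤ H →
    (((A H).filter (fun c => c ∈ Z)).card : ℝ) ≤ ε * (A H).card) ∧
  ∀ k : ℕ, ∃ C : ℝ, ∀ H, ∑ c ∈ (A H).filter (fun c => c ∉ Z), (f c : ℝ) ^ k ≤ C * (A H).card

lemma pr_nonneg (S : Set α) (H : ℕ) : 0 ≤ pr A S H := by unfold pr; positivity

lemma pr_le_one (S : Set α) (H : ℕ) : pr A S H ≤ 1 := by
  unfold pr
  apply div_le_one_of_le₀ _ (Nat.cast_nonneg _)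
  have h := Set.ncard_le_ncard (Set.inter_subset_left (s := (A H : Set α)) (t := S))
    (finite_toSet _)
  rw [Set.ncard_coe_finset] at h
  exact_mod_cast h

lemma ud_nonneg (S : Set α) : 0 ≤ ud A S := by
  apply le_limsup_of_frequently_le
  · exact (Eventually.of_forall fun H => pr_nonneg A S H).frequently
  · exact ⟨1, eventually_map.2 (Eventually.of_forall fun H => pr_le_one A S H)⟩

lemma ud_le_one (S : Set α) : ud A S ≤ 1 := by
  apply limsup_le_of_le
  · exact IsCoboundedUnder.of_frequently_ge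
      (Eventually.of_forall fun H => pr_nonneg A S H).frequently
  · exact Eventually.of_forall fun H => pr_le_one A S H

open scoped Classical in
lemma pr_eq (S : Set α) (H : ℕ) :
    pr A S H = (((A H).filter (fun c => c ∈ S)).card : ℝ) / ((A H).card : ℝ) := by
  unfold pr
  congr 2
  rw [← Set.ncard_coe_finset]
  congr 1
  ext c
  simp

open scoped Classical in
lemma tendsto_of_eps {Z : Set α} (h : ∀ ε : ℝ, 0 < ε → ∃ H0 : ℕ, ∀ H, H0 ≤ H →
    (((A H).filter (fun c => c ∈ Z)).card : ℝ) ≤ ε * (A H).card) :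
    Tendsto (pr A Z) atTop (𝓝 0) := by
  rw [Metric.tendsto_atTop]
  intro ε hε
  obtain ⟨H0, hH0⟩ := h (ε / 2) (by positivity)
  refine ⟨H0, fun H hH => ?_⟩
  have h1 := hH0 H hH
  rw [Real.dist_eq, sub_zero, abs_of_nonneg (pr_nonneg A Z H), pr_eq]
  rcases Nat.eq_zero_or_pos (A H).card with h0 | h0
  · rw [h0, Nat.cast_zero, div_zero]
    exact hε
  · rw [div_lt_iff₀ (by exact_mod_cast h0)]
    refine lt_of_le_of_lt h1 ?_
    have h3 : (0 : ℝ) < (A H).card := by exact_mod_cast h0
    exact mul_lt_mul_of_pos_right (by linarith) h3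

open scoped Classical in
/-- the bound for the upper density -/
lemma ud_le {f : α → ℕ} (h : EXC A f) (k : ℕ) : ∃ C : ℝ, 0 < C ∧ ∀ (r : ℕ) (S : Set α),
    (∀ H, ∀ c ∈ A H, c ∈ S → 2 ^ r ≤ f c ^ k) → ud A S ≤ C / 2 ^ r := by
  obtain ⟨Z, hZ1, hZ2⟩ := h
  obtain ⟨C, hC⟩ := hZ2 k
  refine ⟨max C 1, lt_of_lt_of_le one_pos (le_max_right _ _), fun r S hS => ?_⟩
  have hev : ∀ ε : ℝ, 0 < ε → ud A S ≤ max C 1 / 2 ^ r + ε := by
    intro ε hε
    obtain ⟨H0, hH0⟩ := hZ1 ε hε
    apply limsup_le_of_le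
    · exact IsCoboundedUnder.of_frequently_ge
        (Eventually.of_forall fun H => pr_nonneg A S H).frequently
    filter_upwards [eventually_ge_atTop H0] with H hH
    rw [pr_eq]
    rcases Nat.eq_zero_or_pos (A H).card with h0 | h0
    · rw [h0, Nat.cast_zero, div_zero]
      positivity
    have h3 : (0 : ℝ) < (A H).card := by exact_mod_cast h0
    rw [div_le_iff₀ h3]
    have h1 : (A H).filter (fun c => c ∈ S) ⊆ (A H).filter (fun c => c ∈ Z) ∪
        ((A H).filter (fun c => c ∉ Z)).filter (fun c => c ∈ S) := by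
      intro c hc
      rw [mem_filter] at hc
      rw [mem_union, mem_filter, mem_filter, mem_filter]
      by_cases hz : c ∈ Z
      · exact Or.inl ⟨hc.1, hz⟩
      · exact Or.inr ⟨⟨hc.1, hz⟩, hc.2⟩
    have h2 : ((((A H).filter (fun c => c ∉ Z)).filter (fun c => c ∈ S)).card : ℝ) * 2 ^ r ≤
        max C 1 * (A H).card := by
      calc ((((A H).filter (fun c => c ∉ Z)).filter (fun c => c ∈ S)).card : ℝ) * 2 ^ r =
            ∑ _c ∈ ((A H).filter (fun c => c ∉ Z)).filter (fun c => c ∈ S), (2 : ℝ) ^ r := by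
              rw [sum_const, nsmul_eq_mul]
        _ ≤ ∑ c ∈ ((A H).filter (fun c => c ∉ Z)).filter (fun c => c ∈ S), (f c : ℝ) ^ k := by
            apply sum_le_sum
            intro c hc
            rw [mem_filter, mem_filter] at hc
            exact_mod_cast hS H c hc.1.1 hc.2
        _ ≤ ∑ c ∈ (A H).filter (fun c => c ∉ Z), (f c : ℝ) ^ k :=
            sum_le_sum_of_subset_of_nonneg (filter_subset _ _) fun c _ _ => by positivity
        _ ≤ C * (A H).card := hC H
        _ ≤ _ := mul_le_mul_of_nonneg_right (le_max_left _ _) h3.le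
    calc (((A H).filter (fun c => c ∈ S)).card : ℝ) ≤
          (((A H).filter (fun c => c ∈ Z)).card : ℝ) +
          ((((A H).filter (fun c => c ∉ Z)).filter (fun c => c ∈ S)).card : ℝ) := by
            exact_mod_cast (card_le_card h1).trans (card_union_le _ _)
      _ ≤ ε * (A H).card + max C 1 * (A H).card / 2 ^ r := by
          apply add_le_add (hH0 H hH)
          rw [le_div_iff₀ (by positivity)]
          exact h2
      _ = _ := by ring
  exact le_of_forall_pos_le_add hev

/-- the tails, for a sequence of sets `S r` with `2 ^ r ≤ f ^ m` -/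
theorem tail {f : α → ℕ} (h : EXC A f) (m : ℕ) {S : ℕ → Set α}
    (hS : ∀ r H, ∀ c ∈ A H, c ∈ S r → 2 ^ r ≤ f c ^ m) (B : ℝ) :
    Tendsto (fun r : ℕ => B ^ r * ud A (S r)) atTop (𝓝 0) := by
  -- `ud (S r) ≤ C / 2 ^ (k r)`
  obtain ⟨k, hk⟩ := exists_nat_gt (Real.logb 2 (2 * |B| + 1))
  have hk2 : 2 * |B| + 1 ≤ (2 : ℝ) ^ k := by
    have h1 : (2 : ℝ) ^ (Real.logb 2 (2 * |B| + 1)) ≤ (2 : ℝ) ^ (k : ℝ) :=
      Real.rpow_le_rpow_of_exponent_le (by norm_num) hk.le
    rw [Real.rpow_logb (by norm_num) (by norm_num) (by positivity), Real.rpow_natCast] at h1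
    exact h1
  obtain ⟨C, hC, hev0⟩ := ud_le A h (m * k)
  have hev : ∀ r, ud A (S r) ≤ C / (2 ^ k) ^ r := by
    intro r
    rw [← pow_mul, mul_comm k r]
    apply hev0 (r * k) (S r)
    intro H c hc hr
    rw [pow_mul, pow_mul]
    exact Nat.pow_le_pow_left (hS r H c hc hr) k
  have h2 : Tendsto (fun r : ℕ => C * (1 / 2 : ℝ) ^ r) atTop (𝓝 0) := by
    have := (tendsto_pow_atTop_nhds_zero_of_lt_one (r := (1 / 2 : ℝ)) (by norm_num)
      (by norm_num)).const_mul C
    rwa [mul_zero] at this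
  rw [tendsto_zero_iff_norm_tendsto_zero]
  apply squeeze_zero (fun r => norm_nonneg _) _ h2
  intro r
  rw [norm_mul, Real.norm_eq_abs, Real.norm_eq_abs, abs_of_nonneg (ud_nonneg _ _), abs_pow]
  have h3 : |B| ^ r * ud A (S r) ≤ |B| ^ r * (C / (2 ^ k) ^ r) :=
    mul_le_mul_of_nonneg_left (hev r) (by positivity)
  refine h3.trans ?_
  have h4 : |B| / 2 ^ k ≤ 1 / 2 := by
    rw [div_le_iff₀ (by positivity)]
    linarith
  calc |B| ^ r * (C / (2 ^ k) ^ r) = C * (|B| / 2 ^ k) ^ r := by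
        rw [div_pow]
        ring
    _ ≤ C * (1 / 2) ^ r := by
        apply mul_le_mul_of_nonneg_left _ hC.le
        exact pow_le_pow_left₀ (by positivity) h4 r

end Pool.Agent.TH344.GT
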