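import Mathlib
import Pool.Agent.TH344.GT.Tail

/-! Products of functions with bounded moments outside of a set of density zero. -/

set_option autoImplicit false

namespace Pool.Agent.TH344.GT

open Finset Filter Topology

variable {α : Type} (A : ℕ → Finset α)

/-- the product is at most the sum of the powers -/
lemma prod_pow_le' {ι : Type} [Fintype ι] [Nonempty ι] (x : ι → ℝ) (hx : ∀ i, 0 ≤ x i)
    (k : ℕ) : (∏ i, x i) ^ k ≤ ∑ i, x i ^ (Fintype.card ι * k) := by
  obtain ⟨i0, hi0⟩ := Finite.exists_max x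
  have h1 : ∏ i, x i ≤ x i0 ^ Fintype.card ι := by
    refine (prod_le_prod (fun i _ => hx i) fun i _ => hi0 i).trans (le_of_eq ?_)
    rw [prod_const, card_univ]
  calc (∏ i, x i) ^ k ≤ (x i0 ^ Fintype.card ι) ^ k :=
        pow_le_pow_left₀ (prod_nonneg fun i _ => hx i) h1 k
    _ = x i0 ^ (Fintype.card ι * k) := (pow_mul _ _ _).symm
    _ ≤ _ := single_le_sum (f := fun i => x i ^ (Fintype.card ι * k))
        (fun i _ => pow_nonneg (hx i) _) (mem_univ i0)

open scoped Classical in
/-- finite products -/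
theorem EXC_prod {ι : Type} [Fintype ι] [Nonempty ι] {f : ι → α → ℕ} (h : ∀ i, EXC A (f i)) :
    EXC A (fun c => ∏ i, f i c) := by
  choose Z hZ1 hZ2 using h
  obtain ⟨Y, hY⟩ : ∃ Y : Set α, ∀ c, c ∈ Y ↔ ∃ i, c ∈ Z i := ⟨{c | ∃ i, c ∈ Z i}, fun _ => Iff.rfl⟩
  refine ⟨Y, fun ε hε => ?_, fun k => ?_⟩
  · choose H0 hH0 using fun i => hZ1 i (ε / Fintype.card ι)
      (div_pos hε (by exact_mod_cast Fintype.card_pos))
    refine ⟨univ.sup H0, fun H hH => ?_⟩
    have h1 : (A H).filter (fun c => c ∈ Y) ⊆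
        (univ : Finset ι).biUnion (fun i => (A H).filter (fun c => c ∈ Z i)) := by
      intro c hc
      rw [mem_filter] at hc
      obtain ⟨hcA, hc2⟩ := hc
      obtain ⟨i, hi⟩ := (hY c).1 hc2
      rw [mem_biUnion]
      exact ⟨i, mem_univ _, mem_filter.2 ⟨hcA, hi⟩⟩
    calc (((A H).filter (fun c => c ∈ Y)).card : ℝ)
        ≤ ∑ i : ι, (((A H).filter (fun c => c ∈ Z i)).card : ℝ) := by
          exact_mod_cast (card_le_card h1).trans card_biUnion_le
      _ ≤ ∑ _i : ι, ε / Fintype.card ι * (A H).card :=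
          sum_le_sum fun i _ => hH0 i H ((le_sup (f := H0) (mem_univ i)).trans hH)
      _ = ε * (A H).card := by
          have h2 : (0 : ℝ) < Fintype.card ι := by exact_mod_cast Fintype.card_pos
          rw [sum_const, card_univ, nsmul_eq_mul]
          field_simp
  · choose C hC using fun i => hZ2 i (Fintype.card ι * k)
    refine ⟨∑ i, C i, fun H => ?_⟩
    calc ∑ c ∈ (A H).filter (fun c => c ∉ Y), (((fun c => ∏ i, f i c) c : ℕ) : ℝ) ^ k
        ≤ ∑ c ∈ (A H).filter (fun c => c ∉ Y),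
          ∑ i, (f i c : ℝ) ^ (Fintype.card ι * k) := by
          apply sum_le_sum
          intro c _
          dsimp only
          rw [Nat.cast_prod]
          exact prod_pow_le' _ (fun i => Nat.cast_nonneg _) k
      _ = ∑ i, ∑ c ∈ (A H).filter (fun c => c ∉ Y),
          (f i c : ℝ) ^ (Fintype.card ι * k) := sum_comm
      _ ≤ ∑ i, C i * (A H).card := by
          apply sum_le_sum
          intro i _
          refine le_trans (sum_le_sum_of_subset_of_nonneg ?_ fun c _ _ => by positivity) (hC i H)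
          intro c hc
          rw [mem_filter] at hc ⊢
          exact ⟨hc.1, fun h => hc.2 ((hY c).2 ⟨i, h⟩)⟩
      _ = (∑ i, C i) * (A H).card := (sum_mul _ _ _).symm

open scoped Classical in
/-- a function bounded by a function with bounded moments -/
theorem EXC_mono {f g : α → ℕ} (h : EXC A g) (hfg : ∀ H, ∀ c ∈ A H, f c ≤ g c) : EXC A f := by
  obtain ⟨Z, hZ1, hZ2⟩ := h
  refine ⟨Z, hZ1, fun k => ?_⟩
  obtain ⟨C, hC⟩ := hZ2 k
  refine ⟨C, fun H => le_trans (sum_le_sum fun c hc => ?_) (hC H)⟩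
  exact pow_le_pow_left₀ (Nat.cast_nonneg _) (by exact_mod_cast hfg H c (mem_filter.1 hc).1) k

end Pool.Agent.TH344.GT
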