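import Mathlib
import Pool.Agent.W307.RT.Box

/-! The number of the coprime pairs in a box, from below. -/

set_option autoImplicit false

namespace Pool.Agent.TH344.GT

open Finset Pool.Agent.W307.RT

lemma sum_sq_le (X : ℕ) : ∑ d ∈ Icc 2 X, (1 : ℝ) / (d : ℝ) ^ 2 ≤ 3 / 4 := by
  have h : ∀ K : ℕ, 2 ≤ K → ∑ d ∈ Icc 2 K, (1 : ℝ) / (d : ℝ) ^ 2 ≤ 3 / 4 - 1 / K := by
    intro K hK
    induction K, hK using Nat.le_induction with
    | base => norm_num
    | succ K hK ih =>
      rw [Finset.sum_Icc_succ_top (by omega)]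
      have hK' : (2 : ℝ) ≤ K := by exact_mod_cast hK
      have h1 : (1 : ℝ) / ((K : ℝ) + 1) ^ 2 ≤ 1 / K - 1 / (K + 1) := by
        rw [div_sub_div _ _ (by positivity) (by positivity), div_le_div_iff₀ (by positivity)
          (by positivity)]
        nlinarith
      push_cast at ih ⊢
      linarith
  rcases Nat.lt_or_ge X 2 with hX | hX
  · rw [Icc_eq_empty (by omega), sum_empty]
    norm_num
  · have h1 := h X hX
    have h2 : (0 : ℝ) ≤ 1 / X := by positivity
    linarith

/-- the coprime pairs of natural numbers -/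
lemma cop_nat (X : ℕ) :
    (X : ℝ) ^ 2 / 4 ≤ (((Icc 1 X ×ˢ Icc 1 X).filter (fun t : ℕ × ℕ => t.1.Coprime t.2)).card : ℝ) := by
  have h1 : (Icc 1 X ×ˢ Icc 1 X).filter (fun t : ℕ × ℕ => ¬ t.1.Coprime t.2) ⊆
      (Icc 2 X).biUnion (fun d => (Icc 1 (X / d) ×ˢ Icc 1 (X / d)).image
        (fun t : ℕ × ℕ => (d * t.1, d * t.2))) := by
    intro t ht
    rw [mem_filter, mem_product, mem_Icc, mem_Icc] at ht
    obtain ⟨⟨⟨h1, h2⟩, h3, h4⟩, h5⟩ := ht
    have hg : 0 < Nat.gcd t.1 t.2 := Nat.gcd_pos_of_pos_left _ h1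
    have hg2 : Nat.gcd t.1 t.2 ≤ t.1 := Nat.gcd_le_left _ h1
    rw [mem_biUnion]
    refine ⟨Nat.gcd t.1 t.2, ?_, ?_⟩
    · rw [mem_Icc]
      have : Nat.gcd t.1 t.2 ≠ 1 := h5
      omega
    · rw [mem_image]
      refine ⟨(t.1 / Nat.gcd t.1 t.2, t.2 / Nat.gcd t.1 t.2), ?_, ?_⟩
      · rw [mem_product, mem_Icc, mem_Icc]
        refine ⟨⟨?_, Nat.div_le_div_right h2⟩, ?_, Nat.div_le_div_right h4⟩
        · exact Nat.div_pos (Nat.gcd_le_left _ h1) hg
        · exact Nat.div_pos (Nat.gcd_le_right _ h3) hg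
      · apply Prod.ext
        · exact Nat.mul_div_cancel' (Nat.gcd_dvd_left _ _)
        · exact Nat.mul_div_cancel' (Nat.gcd_dvd_right _ _)
  have h2 : (((Icc 1 X ×ˢ Icc 1 X).filter (fun t : ℕ × ℕ => ¬ t.1.Coprime t.2)).card : ℝ) ≤
      3 / 4 * (X : ℝ) ^ 2 := by
    calc (((Icc 1 X ×ˢ Icc 1 X).filter (fun t : ℕ × ℕ => ¬ t.1.Coprime t.2)).card : ℝ)
        ≤ ∑ d ∈ Icc 2 X, (((Icc 1 (X / d) ×ˢ Icc 1 (X / d)).image
          (fun t : ℕ × ℕ => (d * t.1, d * t.2))).card : ℝ) := by
          exact_mod_cast (card_le_card h1).trans card_biUnion_le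
      _ ≤ ∑ d ∈ Icc 2 X, (X : ℝ) ^ 2 * (1 / (d : ℝ) ^ 2) := by
          apply sum_le_sum
          intro d hd
          rw [mem_Icc] at hd
          have h3 : ((Icc 1 (X / d) ×ˢ Icc 1 (X / d)).image
              (fun t : ℕ × ℕ => (d * t.1, d * t.2))).card ≤ (X / d) * (X / d) := by
            refine card_image_le.trans ?_
            rw [card_product, Nat.card_Icc]
            simp
          have h4 : ((X / d : ℕ) : ℝ) ≤ (X : ℝ) / d := Nat.cast_div_le
          have hd0 : (0 : ℝ) < d := by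
            have : 0 < d := by omega
            exact_mod_cast this
          calc ((((Icc 1 (X / d) ×ˢ Icc 1 (X / d)).image
              (fun t : ℕ × ℕ => (d * t.1, d * t.2))).card : ℕ) : ℝ) ≤
                (((X / d) * (X / d) : ℕ) : ℝ) := by exact_mod_cast h3
            _ = ((X / d : ℕ) : ℝ) * ((X / d : ℕ) : ℝ) := by push_cast; ring
            _ ≤ ((X : ℝ) / d) * ((X : ℝ) / d) :=
                mul_le_mul h4 h4 (Nat.cast_nonneg _) (by positivity)
            _ = (X : ℝ) ^ 2 * (1 / (d : ℝ) ^ 2) := by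
                field_simp
      _ = (X : ℝ) ^ 2 * ∑ d ∈ Icc 2 X, (1 : ℝ) / (d : ℝ) ^ 2 := by rw [mul_sum]
      _ ≤ (X : ℝ) ^ 2 * (3 / 4) := mul_le_mul_of_nonneg_left (sum_sq_le X) (by positivity)
      _ = _ := by ring
  have h3 : ((Icc 1 X ×ˢ Icc 1 X : Finset (ℕ × ℕ)).card : ℝ) = (X : ℝ) ^ 2 := by
    rw [card_product, Nat.card_Icc, Nat.add_sub_cancel]
    push_cast
    ring
  have h4 := card_filter_add_card_filter_not (s := (Icc 1 X ×ˢ Icc 1 X : Finset (ℕ × ℕ)))
    (fun t : ℕ × ℕ => t.1.Coprime t.2)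
  have h5 : (((Icc 1 X ×ˢ Icc 1 X).filter (fun t : ℕ × ℕ => t.1.Coprime t.2)).card : ℝ) +
      (((Icc 1 X ×ˢ Icc 1 X).filter (fun t : ℕ × ℕ => ¬ t.1.Coprime t.2)).card : ℝ) =
      (X : ℝ) ^ 2 := by
    rw [← h3]
    exact_mod_cast h4
  linarith

open scoped Classical in
/-- the zeros of a linear form -/
lemma card_line (X : ℕ) (α β : ℤ) (h : ¬ (α = 0 ∧ β = 0)) :
    ((Box X).filter (fun t => α * t.1 + β * t.2 = 0)).card ≤ 2 * X + 1 := by
  have hc : (Icc (-(X : ℤ)) X).card = 2 * X + 1 := by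
    rw [Int.card_Icc]
    omega
  by_cases h0 : α = 0
  · have hb : β ≠ 0 := fun h1 => h ⟨h0, h1⟩
    rw [← hc]
    apply card_le_card_of_injOn (fun t => t.1)
    · intro t ht
      have ht' := mem_filter.1 (mem_coe.1 ht)
      have h1 := mem_Box.1 ht'.1
      rw [mem_coe, mem_Icc]
      dsimp only
      omega
    · intro t ht t' ht' h1
      have h2 := (mem_filter.1 (mem_coe.1 ht)).2
      have h3 := (mem_filter.1 (mem_coe.1 ht')).2
      rw [h0, zero_mul, zero_add] at h2 h3
      have h4 : t.2 = 0 := by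
        rcases mul_eq_zero.1 h2 with h | h
        · exact absurd h hb
        · exact h
      have h5 : t'.2 = 0 := by
        rcases mul_eq_zero.1 h3 with h | h
        · exact absurd h hb
        · exact h
      exact Prod.ext h1 (h4.trans h5.symm)
  · rw [← hc]
    apply card_le_card_of_injOn (fun t => t.2)
    · intro t ht
      have ht' := mem_filter.1 (mem_coe.1 ht)
      have h1 := mem_Box.1 ht'.1
      rw [mem_coe, mem_Icc]
      dsimp only
      omega
    · intro t ht t' ht' h1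
      have h2 := (mem_filter.1 (mem_coe.1 ht)).2
      have h3 := (mem_filter.1 (mem_coe.1 ht')).2
      have h1' : t.2 = t'.2 := h1
      have h4 : α * (t.1 - t'.1) = 0 := by
        rw [h1'] at h2
        linear_combination h2 - h3
      have h5 : t.1 = t'.1 := by
        rcases mul_eq_zero.1 h4 with h | h
        · exact absurd h h0
        · linarith
      exact Prod.ext h5 h1'

open scoped Classical in
/-- the coprime pairs of the box with nonzero values of the linear forms -/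
theorem cop_box {J : Type} [Fintype J] (α β : J → ℤ) (h : ∀ j, ¬ (α j = 0 ∧ β j = 0)) :
    ∃ X0 : ℕ, ∀ X, X0 ≤ X → (X : ℝ) ^ 2 / 8 ≤
      (((Box X).filter (fun t => IsCoprime t.1 t.2 ∧ ∀ j, α j * t.1 + β j * t.2 ≠ 0)).card : ℝ) := by
  refine ⟨24 * Fintype.card J + 1, fun X hX => ?_⟩
  have h1 : (X : ℝ) ^ 2 / 4 ≤
      (((Box X).filter (fun t => IsCoprime t.1 t.2)).card : ℝ) := by
    refine (cop_nat X).trans ?_
    have h2 : ((Icc 1 X ×ˢ Icc 1 X).filter (fun t : ℕ × ℕ => t.1.Coprime t.2)).card ≤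
        ((Box X).filter (fun t => IsCoprime t.1 t.2)).card := by
      apply card_le_card_of_injOn (fun t : ℕ × ℕ => ((t.1 : ℤ), (t.2 : ℤ)))
      · intro t ht
        have h3 := mem_coe.1 ht
        rw [mem_filter, mem_product, mem_Icc, mem_Icc] at h3
        rw [mem_coe, mem_filter, mem_Box]
        refine ⟨?_, Nat.isCoprime_iff_coprime.2 h3.2⟩
        simp only [Int.natAbs_natCast]
        exact ⟨h3.1.1.2, h3.1.2.2⟩
      · intro t _ t' _ h3
        have h4 := Prod.mk.inj h3
        exact Prod.ext (by exact_mod_cast h4.1) (by exact_mod_cast h4.2)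
    exact_mod_cast h2
  have h2 : (Box X).filter (fun t => IsCoprime t.1 t.2) ⊆
      (Box X).filter (fun t => IsCoprime t.1 t.2 ∧ ∀ j, α j * t.1 + β j * t.2 ≠ 0) ∪
        (univ : Finset J).biUnion (fun j => (Box X).filter (fun t => α j * t.1 + β j * t.2 = 0)) := by
    intro t ht
    rw [mem_filter] at ht
    rw [mem_union, mem_filter, mem_biUnion]
    by_cases hc : ∀ j, α j * t.1 + β j * t.2 ≠ 0
    · exact Or.inl ⟨ht.1, ht.2, hc⟩
    · right
      push Not at hc
      obtain ⟨j, hj⟩ := hc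
      exact ⟨j, mem_univ _, mem_filter.2 ⟨ht.1, hj⟩⟩
  have h3 : (((univ : Finset J).biUnion (fun j =>
      (Box X).filter (fun t => α j * t.1 + β j * t.2 = 0))).card : ℝ) ≤
      Fintype.card J * (3 * X) := by
    have h4 : ((univ : Finset J).biUnion (fun j =>
      (Box X).filter (fun t => α j * t.1 + β j * t.2 = 0))).card ≤ Fintype.card J * (3 * X) := by
      refine card_biUnion_le.trans ?_
      calc ∑ j : J, ((Box X).filter (fun t => α j * t.1 + β j * t.2 = 0)).card
          ≤ ∑ _j : J, (3 * X) := by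
            apply sum_le_sum
            intro j _
            have := card_line X (α j) (β j) (h j)
            omega
        _ = Fintype.card J * (3 * X) := by
            rw [sum_const, smul_eq_mul, card_univ]
    exact_mod_cast h4
  have h4 : (((Box X).filter (fun t => IsCoprime t.1 t.2)).card : ℝ) ≤
      (((Box X).filter (fun t => IsCoprime t.1 t.2 ∧ ∀ j, α j * t.1 + β j * t.2 ≠ 0)).card : ℝ) +
      (((univ : Finset J).biUnion (fun j =>
      (Box X).filter (fun t => α j * t.1 + β j * t.2 = 0))).card : ℝ) := by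
    exact_mod_cast (card_le_card h2).trans (card_union_le _ _)
  have h5 : (Fintype.card J : ℝ) * (3 * X) ≤ (X : ℝ) ^ 2 / 8 := by
    have h6 : (24 * Fintype.card J + 1 : ℝ) ≤ X := by exact_mod_cast hX
    have h7 : (0 : ℝ) ≤ X := Nat.cast_nonneg _
    have h8 : (0 : ℝ) ≤ Fintype.card J := Nat.cast_nonneg _
    nlinarith
  linarith

end Pool.Agent.TH344.GT
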