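import Mathlib
import Pool.Agent.TH344.GT.Tail
import Pool.Agent.TH344.DT.Diag
import Pool.Agent.W307.RT.Box

/-! From weighted moments over boxes to the curves with torsion ordered by height. -/

set_option autoImplicit false

namespace Pool.Agent.TH344.GT

open Finset Pool.Agent.W307.RT

/-- the number of the curves is at least a constant times `N ^ 2` if `N ^ κ ≤ C0 H` -/
lemma low_gen {m κ : ℕ} (hκ : 1 ≤ κ) (hL : LOW m κ) (C0 : ℕ) :
    ∃ (C4 : ℝ) (N0 : ℕ), 0 < C4 ∧ ∀ N H : ℕ, N0 ≤ N → N ^ κ ≤ C0 * H →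
    (N : ℝ) ^ 2 ≤ C4 * ((Cv m H).card : ℝ) := by
  obtain ⟨c, C, T0, hc, h⟩ := hL
  set q := C0 * C + 1 with hq
  refine ⟨4 * q ^ 2 / c, q * (T0 + 1), by positivity, fun N H hN hH => ?_⟩
  rcases Nat.eq_zero_or_pos C0 with rfl | hC0
  · exfalso
    rw [zero_mul] at hH
    have h0 : N ^ κ = 0 := by omega
    have h1 : N = 0 := by
      rcases Nat.eq_zero_or_pos N with h | h
      · exact h
      · exact absurd h0 (pow_pos h κ).ne'
    rw [h1] at hN
    have h2 : 0 < q * (T0 + 1) := by positivity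
    omega
  set T := N / q with hT
  have hq0 : 0 < q := by omega
  have hT1 : T0 + 1 ≤ T := by
    rw [hT, Nat.le_div_iff_mul_le hq0, mul_comm]
    exact hN
  have h1 : T * q ≤ N := Nat.div_mul_le_self N q
  have h2 : N < (T + 1) * q := by
    rw [hT, add_mul, one_mul]
    exact Nat.lt_div_mul_add hq0
  have h3 : C * T ^ κ ≤ H := by
    have h4 : (T * q) ^ κ ≤ C0 * H := (Nat.pow_le_pow_left h1 κ).trans hH
    rw [mul_pow] at h4
    have h5 : C0 * C ≤ q ^ κ := (by omega : C0 * C ≤ q).trans (Nat.le_self_pow (by omega) q)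
    have h6 : T ^ κ * (C0 * C) ≤ C0 * H := (Nat.mul_le_mul_left _ h5).trans h4
    have h7 : C0 * (C * T ^ κ) ≤ C0 * H := by
      calc C0 * (C * T ^ κ) = T ^ κ * (C0 * C) := by ring
        _ ≤ C0 * H := h6
    exact Nat.le_of_mul_le_mul_left h7 hC0
  have h4 := h T H (by omega) h3
  have h5 : (N : ℝ) ≤ 2 * q * T := by
    have h6 : N ≤ 2 * q * T := by
      have : (T + 1) * q ≤ 2 * q * T := by nlinarith
      omega
    exact_mod_cast h6
  rw [div_mul_eq_mul_div, le_div_iff₀ hc]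
  calc (N : ℝ) ^ 2 * c ≤ (2 * q * T) ^ 2 * c := by gcongr
    _ = 4 * q ^ 2 * (c * T ^ 2) := by ring
    _ ≤ _ := mul_le_mul_of_nonneg_left h4 (by positivity)

lemma Cv_mono' (m : ℕ) : Monotone (Cv m) := by
  classical
  intro H H' h c hc
  unfold Cv at hc ⊢
  rw [mem_filter, mem_product, mem_Icc, mem_Icc] at hc ⊢
  have h' : (H : ℤ) ≤ H' := by exact_mod_cast h
  obtain ⟨⟨⟨a1, a2⟩, a3, a4⟩, b1, b2, b3, b4⟩ := hc
  exact ⟨⟨⟨by linarith, by linarith⟩, by linarith, by linarith⟩, b1, by linarith, by linarith, b4⟩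

open scoped Classical in
/-- from the weighted moments over the boxes to the curves ordered by height -/
theorem exc_curves {m κ : ℕ} (hκ : 1 ≤ κ) (hL : LOW m κ) (C0 : ℕ) (F : ℤ × ℤ → ℤ × ℤ)
    (P : ℤ × ℤ → Prop) (g : ℤ × ℤ → ℕ)
    (hinj : ∀ H, Set.InjOn F (Cv m H : Set (ℤ × ℤ)))
    (hbd : ∀ H, ∀ c ∈ Cv m H, P (F c) ∧ (F c).1.natAbs ^ κ ≤ C0 * H ∧
      (F c).2.natAbs ^ κ ≤ C0 * H)
    (h : ∀ k : ℕ, 1 ≤ k → ∃ ρ G : ℤ × ℤ → ℝ, (∀ t, 0 ≤ ρ t ∧ ρ t ≤ 1) ∧ (∀ t, 0 ≤ G t) ∧
      (∀ ε : ℝ, 0 < ε → ∃ N0 : ℕ, ∀ N, N0 ≤ N →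
        (((Box N).filter (fun t => P t ∧ ρ t < 1)).card : ℝ) ≤ ε * N ^ 2) ∧
      (∀ H, ∀ c ∈ Cv m H, (g c : ℝ) ^ k * ρ (F c) ≤ G (F c)) ∧
      ∃ C : ℝ, 0 ≤ C ∧ ∀ N : ℕ, 1 ≤ N → ∑ t ∈ Box N, G t ≤ C * (N : ℝ) ^ 2) :
    EXC (Cv m) g := by
  obtain ⟨C4, N1, hC4, hlow⟩ := low_gen hκ hL C0
  -- the size of the box
  have hbox : ∀ H : ℕ, ∃ N : ℕ, N ^ κ ≤ C0 * H ∧ ∀ n : ℕ, n ^ κ ≤ C0 * H → n ≤ N := by
    intro H
    refine ⟨Nat.findGreatest (fun n => n ^ κ ≤ C0 * H) (C0 * H), ?_, fun n hn => ?_⟩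
    · exact Nat.findGreatest_spec (P := fun n => n ^ κ ≤ C0 * H)
        (Nat.zero_le _) (by rw [zero_pow (by omega)]; exact Nat.zero_le _)
    · exact Nat.le_findGreatest ((Nat.le_self_pow (by omega) n).trans hn) hn
  choose N hN1 hN2 using hbox
  -- a lower bound for all `H` with nonempty sets
  have hlow2 : ∀ H, Cv m H = ∅ ∨ (N H : ℝ) ^ 2 ≤ (C4 + (N1 : ℝ) ^ 2) * ((Cv m H).card : ℝ) := by
    intro H
    rcases (Cv m H).eq_empty_or_nonempty with he | hne
    · exact Or.inl he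
    right
    have h1 : (1 : ℝ) ≤ (Cv m H).card := by exact_mod_cast hne.card_pos
    rcases le_total N1 (N H) with h2 | h2
    · have h3 := hlow (N H) H h2 (hN1 H)
      have h4 : (0 : ℝ) ≤ (N1 : ℝ) ^ 2 * (Cv m H).card := by positivity
      linarith
    · have h3 : (N H : ℝ) ^ 2 ≤ (N1 : ℝ) ^ 2 :=
        pow_le_pow_left₀ (Nat.cast_nonneg _) (by exact_mod_cast h2) 2
      have h4 : (0 : ℝ) ≤ (N1 : ℝ) ^ 2 := by positivity
      nlinarith
  have hmemBox : ∀ H, ∀ c ∈ Cv m H, F c ∈ Box (N H) := by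
    intro H c hc
    obtain ⟨-, h1, h2⟩ := hbd H c hc
    rw [mem_Box]
    exact ⟨hN2 H _ h1, hN2 H _ h2⟩
  -- the number `N H` is positive if the set is not empty
  have hpos : ∀ H, (Cv m H).Nonempty → 1 ≤ N H ∨ ∀ c ∈ Cv m H, F c = (0, 0) := by
    intro H _
    rcases Nat.eq_zero_or_pos (N H) with h0 | h0
    · right
      intro c hc
      have h1 := hmemBox H c hc
      rw [h0, mem_Box] at h1
      exact Prod.ext (by simpa using h1.1) (by simpa using h1.2)
    · exact Or.inl h0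
  choose ρ G hρ hG hbad hgG C hC0 hC using fun k : ℕ => h (k + 1) (Nat.succ_le_succ (Nat.zero_le k))
  -- the moments
  have hmom : ∀ k H, ∑ c ∈ Cv m H, G k (F c) ≤
      (C k * (C4 + (N1 : ℝ) ^ 2) + G k (0, 0)) * ((Cv m H).card : ℝ) := by
    intro k H
    rcases (Cv m H).eq_empty_or_nonempty with he | hne
    · rw [he]
      simp
    have hcard : (0 : ℝ) ≤ (Cv m H).card := Nat.cast_nonneg _
    rcases hpos H hne with h1 | h1
    · rcases hlow2 H with he | hlow3
      · rw [he]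
        simp
      calc ∑ c ∈ Cv m H, G k (F c) = ∑ t ∈ (Cv m H).image F, G k t := by
            rw [sum_image]
            intro c hc c' hc' hcc
            exact hinj H hc hc' hcc
        _ ≤ ∑ t ∈ Box (N H), G k t := by
            apply sum_le_sum_of_subset_of_nonneg
            · intro t ht
              rw [mem_image] at ht
              obtain ⟨c, hc, rfl⟩ := ht
              exact hmemBox H c hc
            · intro t _ _
              exact hG k t
        _ ≤ C k * (N H : ℝ) ^ 2 := hC k (N H) h1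
        _ ≤ C k * ((C4 + (N1 : ℝ) ^ 2) * ((Cv m H).card : ℝ)) :=
            mul_le_mul_of_nonneg_left hlow3 (hC0 k)
        _ ≤ _ := by
            have := hG k (0, 0)
            nlinarith
    · calc ∑ c ∈ Cv m H, G k (F c) = ∑ _c ∈ Cv m H, G k (0, 0) :=
            sum_congr rfl fun c hc => by rw [h1 c hc]
        _ = G k (0, 0) * (Cv m H).card := by
            rw [sum_const, nsmul_eq_mul, mul_comm]
        _ ≤ _ := by
            apply mul_le_mul_of_nonneg_right _ hcard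
            have := hC0 k
            have h2 : 0 ≤ C k * (C4 + (N1 : ℝ) ^ 2) := by positivity
            linarith
  apply Pool.Agent.TH344.DT.diag (Cv m) (Cv_mono' m) (fun c => (g c : ℝ))
    (fun c => Nat.cast_nonneg _) (fun k => {c | ρ k (F c) < 1})
  · intro k ε hε
    obtain ⟨N0, hN0⟩ := hbad k (ε / (C4 + (N1 : ℝ) ^ 2)) (by positivity)
    refine ⟨(N0 + 1) ^ κ, fun H hH => ?_⟩
    rcases Nat.eq_zero_or_pos C0 with hC00 | hC00
    · -- all `F c` are zero, at most one curve: impossible to have a lower bound, use `LOW`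
      exfalso
      obtain ⟨c, CC, T0, hc, hl⟩ := hL
      -- two different curves
      have h1 := hl (max T0 (Nat.ceil (2 / c) + 1)) (CC * (max T0 (Nat.ceil (2 / c) + 1)) ^ κ)
        (le_max_left _ _) le_rfl
      set TT := max T0 (Nat.ceil (2 / c) + 1) with hTT
      set HH := CC * TT ^ κ with hHH
      have h2 : (Nat.ceil (2 / c) + 1 : ℝ) ≤ TT := by
        exact_mod_cast le_max_right T0 (Nat.ceil (2 / c) + 1)
      have h3 : 2 / c ≤ Nat.ceil (2 / c) := Nat.le_ceil _
      have h4 : 2 < c * (TT : ℝ) ^ 2 := by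
        have h5 : 2 / c < TT := by linarith
        rw [div_lt_iff₀ hc] at h5
        have h6 : (1 : ℝ) ≤ TT := by
          have : (0 : ℝ) ≤ Nat.ceil (2 / c) := Nat.cast_nonneg _
          linarith
        nlinarith
      have h5 : 1 < (Cv m HH).card := by
        have : (1 : ℝ) < (Cv m HH).card := by linarith
        exact_mod_cast this
      obtain ⟨c1, hc1, c2, hc2, hne⟩ := one_lt_card.1 h5
      apply hne
      apply hinj HH hc1 hc2
      have h6 : ∀ c ∈ Cv m HH, F c = (0, 0) := by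
        intro c hc
        obtain ⟨-, h7, h8⟩ := hbd HH c hc
        rw [hC00, zero_mul] at h7 h8
        have h9 : (F c).1.natAbs = 0 := by
          by_contra h0
          have := pow_pos (Nat.pos_of_ne_zero h0) κ
          omega
        have h10 : (F c).2.natAbs = 0 := by
          by_contra h0
          have := pow_pos (Nat.pos_of_ne_zero h0) κ
          omega
        exact Prod.ext (Int.natAbs_eq_zero.1 h9) (Int.natAbs_eq_zero.1 h10)
      rw [h6 c1 hc1, h6 c2 hc2]
    have hNN : N0 ≤ N H := by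
      have h1 : (N0 + 1) ^ κ ≤ C0 * H := hH.trans (Nat.le_mul_of_pos_left _ hC00)
      have := hN2 H _ h1
      omega
    rcases hlow2 H with he | hlow3
    · rw [he]
      simp
    have h1 : ((Cv m H).filter (fun c => c ∈ {c | ρ k (F c) < 1})).card ≤
        ((Box (N H)).filter (fun t => P t ∧ ρ k t < 1)).card := by
      apply card_le_card_of_injOn F
      · intro c hc
        rw [mem_coe, mem_filter] at hc
        rw [mem_coe, mem_filter]
        exact ⟨hmemBox H c hc.1, (hbd H c hc.1).1, hc.2⟩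
      · intro c hc c' hc' hcc
        rw [mem_coe, mem_filter] at hc hc'
        exact hinj H (mem_coe.2 hc.1) (mem_coe.2 hc'.1) hcc
    calc (((Cv m H).filter (fun c => c ∈ {c | ρ k (F c) < 1})).card : ℝ)
        ≤ (((Box (N H)).filter (fun t => P t ∧ ρ k t < 1)).card : ℝ) := by exact_mod_cast h1
      _ ≤ ε / (C4 + (N1 : ℝ) ^ 2) * (N H : ℝ) ^ 2 := hN0 (N H) hNN
      _ ≤ ε / (C4 + (N1 : ℝ) ^ 2) * ((C4 + (N1 : ℝ) ^ 2) * (Cv m H).card) :=
          mul_le_mul_of_nonneg_left hlow3 (by positivity)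
      _ = ε * (Cv m H).card := by
        field_simp
  · intro k
    rcases Nat.eq_zero_or_pos k with rfl | hk
    · refine ⟨1, fun H => ?_⟩
      simp only [pow_zero, sum_const, nsmul_eq_mul, mul_one, one_mul]
      exact_mod_cast card_filter_le _ _
    refine ⟨C k * (C4 + (N1 : ℝ) ^ 2) + G k (0, 0), fun H => le_trans ?_ (hmom k H)⟩
    calc ∑ c ∈ (Cv m H).filter (fun c => c ∉ {c | ρ k (F c) < 1}), (g c : ℝ) ^ k
        ≤ ∑ c ∈ (Cv m H).filter (fun c => c ∉ {c | ρ k (F c) < 1}), G k (F c) := by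
          apply sum_le_sum
          intro c hc
          rw [mem_filter] at hc
          have h1 : ρ k (F c) = 1 := le_antisymm (hρ k _).2 (not_lt.1 hc.2)
          have h2 := hgG k H c hc.1
          rw [h1, mul_one] at h2
          refine le_trans ?_ h2
          rcases Nat.eq_zero_or_pos (g c) with h0 | h0
          · rw [h0, Nat.cast_zero, zero_pow hk.ne', zero_pow (Nat.succ_ne_zero k)]
          · exact pow_le_pow_right₀ (by exact_mod_cast h0) (Nat.le_succ k)
      _ ≤ _ := sum_le_sum_of_subset_of_nonneg (filter_subset _ _) fun c _ _ => hG k _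

end Pool.Agent.TH344.GT
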